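import Mathlib

set_option linter.unusedSectionVars false

namespace Pool.Agent.H.TGQ
open Classical

variable {K : Type} [Field K] [CharZero K]

def col (A B C : ℚ × K) : Prop :=
  (C.2 - A.2) * ((B.1 : K) - A.1) = (B.2 - A.2) * ((C.1 : K) - A.1)

def Good (S : Set (ℚ × K)) : Prop :=
  (∀ A ∈ S, ∀ B ∈ S, A.1 = B.1 → A = B) ∧
  (∀ A ∈ S, ∀ B ∈ S, ∀ C ∈ S, A ≠ B → A ≠ C → B ≠ C → ¬ col A B C)

def Sl (P Q : ℚ × K) (m : K) : Prop := Q ≠ P ∧ Q.2 - P.2 = m * ((Q.1 : K) - P.1)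

theorem step (S : Finset (ℚ × K)) (hS : Good (S : Set (ℚ × K))) (P : ℚ × K) (m : K) :
    ∃ S' : Finset (ℚ × K), S ⊆ S' ∧ Good (S' : Set (ℚ × K)) ∧ (P ∈ S → ∃ Q ∈ S', Sl P Q m) := by
  by_cases h : P ∈ S → ∃ Q ∈ S, Sl P Q m
  · exact ⟨S, subset_rfl, hS, h⟩
  push Not at h
  obtain ⟨hP, hn⟩ := h
  let q : ℚ → ℚ × K := fun t => (t, P.2 + m * ((t : K) - P.1))
  have hfin : ∀ A ∈ S, ∀ B ∈ S, A ≠ B → {t : ℚ | col A B (q t)}.Finite := by
    intro A hA B hB hAB
    apply Set.Subsingleton.finite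
    intro t ht t' ht'
    by_contra hne
    have h1 : ((t : K) - t') ≠ 0 := sub_ne_zero.2 (by exact_mod_cast hne)
    have h2 : ((B.1 : K) - A.1) ≠ 0 :=
      sub_ne_zero.2 (fun h => hAB (hS.1 A hA B hB (by exact_mod_cast h.symm)))
    simp only [Set.mem_setOf_eq, col, q] at ht ht'
    have h3 : m * ((B.1 : K) - A.1) = B.2 - A.2 := by
      apply mul_right_cancel₀ h1
      linear_combination ht - ht'
    have h4 : A.2 - P.2 = m * ((A.1 : K) - P.1) := by
      apply mul_right_cancel₀ h2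
      linear_combination -ht + ((t : K) - A.1) * h3
    by_cases hAP : A = P
    · exact hn B hB ⟨fun h => hAB (hAP.trans h.symm), by rw [← hAP]; exact h3.symm⟩
    · exact hn A hA ⟨hAP, h4⟩
  have hfin2 : ((Prod.fst '' (S : Set (ℚ × K))) ∪ ⋃ A ∈ (S : Set (ℚ × K)), ⋃ B ∈ (S : Set (ℚ × K)),
      {t : ℚ | A ≠ B ∧ col A B (q t)}).Finite := by
    refine (S.finite_toSet.image _).union (S.finite_toSet.biUnion fun A hA =>
      S.finite_toSet.biUnion fun B hB => ?_)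
    by_cases hAB : A = B
    · simp [hAB]
    · exact (hfin A hA B hB hAB).subset (fun t ht => ht.2)
  obtain ⟨t, ht⟩ := hfin2.exists_notMem
  simp only [Set.mem_union, Set.mem_image, Set.mem_iUnion, Set.mem_setOf_eq, not_or, not_exists,
    not_and] at ht
  obtain ⟨ht1, ht2⟩ := ht
  have hc : ∀ A ∈ S, ∀ B ∈ S, A ≠ B → ¬ col A B (q t) := fun A hA B hB => ht2 A hA B hB
  refine ⟨insert (q t) S, Finset.subset_insert _ _, ⟨?_, ?_⟩, fun _ => ⟨q t, by simp, ?_, ?_⟩⟩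
  · intro A hA B hB hAB
    simp only [Finset.coe_insert, Set.mem_insert_iff, Finset.mem_coe] at hA hB
    rcases hA with rfl | hA <;> rcases hB with rfl | hB
    · rfl
    · exact absurd hAB.symm (ht1 B hB)
    · exact absurd hAB (ht1 A hA)
    · exact hS.1 A hA B hB hAB
  · intro A hA B hB C hC h1 h2 h3
    simp only [Finset.coe_insert, Set.mem_insert_iff, Finset.mem_coe] at hA hB hC
    rcases hA with rfl | hA <;> rcases hB with rfl | hB <;> rcases hC with rfl | hC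
    · exact absurd rfl h1
    · exact absurd rfl h1
    · exact absurd rfl h2
    · intro h; apply hc B hB C hC h3; unfold col at h ⊢; linear_combination h
    · exact absurd rfl h3
    · intro h; apply hc A hA C hC h2; unfold col at h ⊢; linear_combination -h
    · exact hc A hA B hB h1
    · exact hS.2 A hA B hB C hC h1 h2 h3
  · intro h
    exact ht1 P hP (by rw [← h])
  · simp [q]

theorem oval [Countable K] : ∃ O : Set (ℚ × K), ((0 : ℚ), (0 : K)) ∈ O ∧ Good O ∧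
    ∀ P ∈ O, ∀ m : K, ∃ Q ∈ O, Sl P Q m := by
  obtain ⟨f, hf⟩ := exists_surjective_nat ((ℚ × K) × K)
  choose F h1 h2 h3 using (step (K := K))
  have h0 : Good (({((0 : ℚ), (0 : K))} : Finset (ℚ × K)) : Set (ℚ × K)) := by
    constructor
    · intro A hA B hB _
      simp only [Finset.coe_singleton, Set.mem_singleton_iff] at hA hB
      rw [hA, hB]
    · intro A hA B hB C _ h
      simp only [Finset.coe_singleton, Set.mem_singleton_iff] at hA hB
      exact absurd (hA.trans hB.symm) h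
  let S : ℕ → {S : Finset (ℚ × K) // Good (S : Set (ℚ × K))} := fun n =>
    Nat.rec ⟨_, h0⟩ (fun n S => ⟨F S.1 S.2 (f n.unpair.1).1 (f n.unpair.1).2, h2 _ _ _ _⟩) n
  have hs : ∀ n, (S (n + 1)).1 = F (S n).1 (S n).2 (f n.unpair.1).1 (f n.unpair.1).2 :=
    fun n => rfl
  have hm : Monotone (fun n => (S n).1) :=
    monotone_nat_of_le_succ (fun n => by simp only [hs]; exact h1 _ _ _ _)
  refine ⟨{A | ∃ n, A ∈ (S n).1}, ⟨0, Finset.mem_singleton_self _⟩, ⟨?_, ?_⟩, ?_⟩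
  · rintro A ⟨a, hA⟩ B ⟨b, hB⟩
    exact (S (a + b)).2.1 A (hm (by omega : a ≤ a + b) hA) B (hm (by omega : b ≤ a + b) hB)
  · rintro A ⟨a, hA⟩ B ⟨b, hB⟩ C ⟨c, hC⟩
    exact (S (a + b + c)).2.2 A (hm (by omega : a ≤ a + b + c) hA) B
      (hm (by omega : b ≤ a + b + c) hB) C (hm (by omega : c ≤ a + b + c) hC)
  · rintro P ⟨a, hP⟩ m
    obtain ⟨k, hk⟩ := hf (P, m)
    have h4 := h3 (S (Nat.pair k a)).1 (S (Nat.pair k a)).2 P m (hm (Nat.right_le_pair k a) hP)
    obtain ⟨Q, hQ, hQ'⟩ := h4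
    refine ⟨Q, ⟨Nat.pair k a + 1, ?_⟩, hQ'⟩
    rw [hs]
    simpa [Nat.unpair_pair, hk] using hQ

instance : Countable (Polynomial ℚ) := by
  rw [← Cardinal.mk_le_aleph0_iff]
  simpa using (Polynomial.cardinalMk_le_max (R := ℚ))

instance : Countable (RatFunc ℚ) :=
  Function.Surjective.countable (f := fun p : Polynomial ℚ × Polynomial ℚ =>
    algebraMap (Polynomial ℚ) (RatFunc ℚ) p.1 / algebraMap (Polynomial ℚ) (RatFunc ℚ) p.2)
    (fun z => ⟨(z.num, z.denom), RatFunc.num_div_denom z⟩)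

end Pool.Agent.H.TGQ
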