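import Pool.Agent.H.MP_0f105f_co.A

set_option linter.unusedSectionVars false

namespace Pool.Agent.H.TGQ
open Classical Polynomial

abbrev R := Polynomial ℚ
abbrev KK := RatFunc ℚ
abbrev GG := R × R × KK

noncomputable abbrev φ : R →+* KK := algebraMap R KK

theorem φ_inj : Function.Injective φ := RatFunc.algebraMap_injective ℚ

theorem φ_C (t : ℚ) : φ (C t) = (t : KK) := by
  have : (φ.comp C) t = (t : KK) := eq_ratCast _ t
  exact this

noncomputable def O : Set (ℚ × KK) := (oval (K := KK)).choose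

theorem O_spec : ((0 : ℚ), (0 : KK)) ∈ O ∧ Good O ∧ ∀ P ∈ O, ∀ m : KK, ∃ Q ∈ O, Sl P Q m :=
  (oval (K := KK)).choose_spec

abbrev J := O

noncomputable def u (j : J) (g : GG) : R := g.2.1 - C j.1.1 * g.1
noncomputable def w (j : J) (g : GG) : KK := g.2.2 - φ g.1 * j.1.2

theorem u_add (j : J) (g h : GG) : u j (g + h) = u j g + u j h := by simp [u]; ring
theorem w_add (j : J) (g h : GG) : w j (g + h) = w j g + w j h := by simp [w]; ring
theorem u_sub (j : J) (g h : GG) : u j (g - h) = u j g - u j h := by simp [u]; ring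
theorem w_sub (j : J) (g h : GG) : w j (g - h) = w j g - w j h := by simp [w]; ring
theorem u_zero (j : J) : u j 0 = 0 := by simp [u]
theorem w_zero (j : J) : w j 0 = 0 := by simp [w]

theorem t_ne {j k : J} (h : j ≠ k) : j.1.1 - k.1.1 ≠ 0 :=
  sub_ne_zero.2 (fun e => h (Subtype.ext (O_spec.2.1.1 _ j.2 _ k.2 e)))

theorem F1 {j k : J} (hjk : j ≠ k) {g h : GG} (h1 : u j g = u j h) (h2 : w j g = w j h)
    (h3 : u k g = u k h) : g = h := by
  obtain ⟨a, b, c⟩ := g
  obtain ⟨a', b', c'⟩ := h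
  simp only [u, w] at h1 h2 h3
  have h4 : C (j.1.1 - k.1.1) * (a - a') = 0 := by rw [C_sub]; linear_combination h3 - h1
  have h5 : a = a' := by
    rcases mul_eq_zero.1 h4 with h | h
    · exact absurd (C_eq_zero.1 h) (t_ne hjk)
    · exact sub_eq_zero.1 h
  subst h5
  have h6 : b = b' := by linear_combination h1
  have h7 : c = c' := by linear_combination h2
  rw [h6, h7]

theorem Cinv {t : ℚ} (ht : t ≠ 0) : (C t : R) * C t⁻¹ = 1 := by
  rw [← C_mul, mul_inv_cancel₀ ht, C_1]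

theorem F2 {j k : J} (hjk : j ≠ k) (c c' : R) (e : KK) :
    ∃ g : GG, u j g = c ∧ w j g = e ∧ u k g = c' := by
  have h := Cinv (t_ne hjk)
  rw [C_sub] at h
  refine ⟨(C (j.1.1 - k.1.1)⁻¹ * (c' - c), c + C j.1.1 * (C (j.1.1 - k.1.1)⁻¹ * (c' - c)),
    e + φ (C (j.1.1 - k.1.1)⁻¹ * (c' - c)) * j.1.2), ?_, ?_, ?_⟩
  · simp only [u]; ring
  · simp only [w]; ring
  · simp only [u]; linear_combination (c' - c) * h

theorem F3 (j : J) (g : GG) (c : R) (e : KK) (hc : u j g ≠ c) :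
    ∃ (k : J) (h : GG), k ≠ j ∧ u j h = c ∧ w j h = e ∧ u k g = u k h ∧ w k g = w k h := by
  have h0 : φ (u j g - c) ≠ 0 := fun h => hc (sub_eq_zero.1 (φ_inj (h.trans (map_zero φ).symm)))
  obtain ⟨Q, hQ, hne, hs⟩ := O_spec.2.2 j.1 j.2 ((w j g - e) / φ (u j g - c))
  let k : J := ⟨Q, hQ⟩
  have hkj : k ≠ j := fun h => hne (congrArg Subtype.val h)
  have h := Cinv (t_ne hkj)
  have h' : ((Q.1 : KK) - j.1.1) * φ (C (k.1.1 - j.1.1)⁻¹) = 1 := by
    have := congrArg φ h
    rw [map_mul, φ_C, map_one] at this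
    push_cast at this
    exact this
  rw [C_sub] at h
  set s : R := C (k.1.1 - j.1.1)⁻¹ * (u j g - c) with hs'
  refine ⟨k, g - (s, C Q.1 * s, φ s * Q.2), hkj, ?_, ?_, ?_, ?_⟩
  · rw [u_sub]
    simp only [u] at hs' ⊢
    rw [hs']
    linear_combination (-(g.2.1 - C j.1.1 * g.1 - c)) * h
  · rw [w_sub]
    have e1 : w j (s, C Q.1 * s, φ s * Q.2) = φ s * (Q.2 - j.1.2) := by simp only [w]; ring
    rw [e1, hs, hs', map_mul]
    generalize φ (C (k.1.1 - j.1.1)⁻¹) = z at h' ⊢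
    field_simp
    linear_combination (-(w j g - e)) * h'
  · rw [u_sub]; simp [u, k]
  · rw [w_sub]; simp [w, k]

theorem F4 {j k l : J} (h1 : j ≠ k) (h2 : l ≠ j) (h3 : l ≠ k) {g h h' : GG}
    (a1 : u j h = u j h') (a2 : w j h = w j h') (b1 : u k g = u k h) (b2 : w k g = w k h)
    (c1 : u l g = u l h') (c2 : w l g = w l h') : h = h' := by
  have key : h.1 = h'.1 := by
    by_contra hne
    have h0 : φ h.1 - φ h'.1 ≠ 0 := fun e => hne (φ_inj (sub_eq_zero.1 e))
    apply O_spec.2.1.2 l.1 l.2 j.1 j.2 k.1 k.2 (fun e => h2 (Subtype.ext e))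
      (fun e => h3 (Subtype.ext e)) (fun e => h1 (Subtype.ext e))
    have a1' := congrArg φ a1
    have b1' := congrArg φ b1
    have c1' := congrArg φ c1
    simp only [u, w, map_sub, map_mul, φ_C] at a1' b1' c1' a2 b2 c2
    unfold col
    apply mul_left_cancel₀ h0
    linear_combination (k.1.2 - l.1.2) * (c1' - a1' - b1') - ((k.1.1 : KK) - l.1.1) * (c2 - a2 - b2)
  simp only [u, w, key] at a1 a2
  exact Prod.ext key (Prod.ext (by linear_combination a1) (by linear_combination a2))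

theorem three : ∃ a b c : J, a ≠ b ∧ a ≠ c ∧ b ≠ c := by
  obtain ⟨Q, hQ, h1, h2⟩ := O_spec.2.2 _ O_spec.1 0
  obtain ⟨Q', hQ', h3, h4⟩ := O_spec.2.2 _ O_spec.1 1
  refine ⟨⟨_, O_spec.1⟩, ⟨Q, hQ⟩, ⟨Q', hQ'⟩, fun h => h1 (congrArg Subtype.val h).symm,
    fun h => h3 (congrArg Subtype.val h).symm, fun h => ?_⟩
  have e : Q = Q' := congrArg Subtype.val h
  subst e
  apply h1
  apply O_spec.2.1.1 _ hQ _ O_spec.1
  have : (Q.1 : KK) = 0 := by
    simp only [Rat.cast_zero] at h2 h4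
    linear_combination h2 - h4
  exact_mod_cast this

inductive Pt
  | aff (g : GG)
  | tan (j : J) (c : R)
  | inf

inductive Ln
  | cos (j : J) (c : R) (e : KK)
  | sym (j : J)

def Inc : Pt → Ln → Prop
  | .aff g, .cos j c e => u j g = c ∧ w j g = e
  | .aff _, .sym _ => False
  | .tan j c, .cos j' c' _ => j = j' ∧ c = c'
  | .tan j _, .sym j' => j = j'
  | .inf, .cos _ _ _ => False
  | .inf, .sym _ => True

noncomputable def vP (g : GG) : Pt → Pt
  | .aff h => .aff (g + h)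
  | .tan j c => .tan j (u j g + c)
  | .inf => .inf

noncomputable def vL (g : GG) : Ln → Ln
  | .cos j c e => .cos j (u j g + c) (w j g + e)
  | .sym j => .sym j

noncomputable instance : AddAction GG Pt where
  vadd := vP
  zero_vadd p := by
    show vP 0 p = p
    cases p <;> simp [vP, u_zero]
  add_vadd g h p := by
    show vP (g + h) p = vP g (vP h p)
    cases p <;> simp [vP, u_add, add_assoc]

noncomputable instance : AddAction GG Ln where
  vadd := vL
  zero_vadd p := by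
    show vL 0 p = p
    cases p <;> simp [vL, u_zero, w_zero]
  add_vadd g h p := by
    show vL (g + h) p = vL g (vL h p)
    cases p <;> simp [vL, u_add, w_add, add_assoc]

theorem vP_eq (g : GG) (p : Pt) : g +ᵥ p = vP g p := rfl
theorem vL_eq (g : GG) (p : Ln) : g +ᵥ p = vL g p := rfl

theorem two (p q : Pt) (l m : Ln) (hpq : p ≠ q) (h1 : Inc p l) (h2 : Inc q l) (h3 : Inc p m)
    (h4 : Inc q m) : l = m := by
  rcases p with g | ⟨j, c⟩ | _ <;> rcases q with h | ⟨k, d⟩ | _ <;>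
    rcases l with ⟨a, b, e⟩ | a <;> rcases m with ⟨a', b', e'⟩ | a' <;>
    simp only [Inc] at h1 h2 h3 h4
  · by_cases haa : a = a'
    · subst haa
      rw [← h1.1, ← h1.2, ← h3.1, ← h3.2]
    · exact absurd (congrArg Pt.aff (F1 haa (h1.1.trans h2.1.symm) (h1.2.trans h2.2.symm)
        (h3.1.trans h4.1.symm))) hpq
  all_goals grind

theorem line3 (l : Ln) : ∃ a b c, a ≠ b ∧ a ≠ c ∧ b ≠ c ∧ Inc a l ∧ Inc b l ∧ Inc c l := by
  rcases l with ⟨j, c, e⟩ | j
  · refine ⟨.tan j c, .aff (0, c, e), .aff (1, c + C j.1.1, e + j.1.2), by simp, by simp,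
      by simp, by simp [Inc], by simp [Inc, u, w], by simp [Inc, u, w]⟩
  · exact ⟨.inf, .tan j 0, .tan j 1, by simp, by simp, by simp, by simp [Inc], by simp [Inc],
      by simp [Inc]⟩

theorem point3 (p : Pt) : ∃ a b c, a ≠ b ∧ a ≠ c ∧ b ≠ c ∧ Inc p a ∧ Inc p b ∧ Inc p c := by
  obtain ⟨a, b, c, h1, h2, h3⟩ := three
  rcases p with g | ⟨j, d⟩ | _
  · exact ⟨.cos a (u a g) (w a g), .cos b (u b g) (w b g), .cos c (u c g) (w c g), by simp [h1],
      by simp [h2], by simp [h3], by simp [Inc], by simp [Inc], by simp [Inc]⟩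
  · exact ⟨.sym j, .cos j d 0, .cos j d 1, by simp, by simp, by simp, by simp [Inc],
      by simp [Inc], by simp [Inc]⟩
  · exact ⟨.sym a, .sym b, .sym c, by simp [h1], by simp [h2], by simp [h3], by simp [Inc],
      by simp [Inc], by simp [Inc]⟩

theorem proj (p : Pt) (l : Ln) (hpl : ¬ Inc p l) : ∃! q, Inc q l ∧ ∃ m, Inc p m ∧ Inc q m := by
  rcases p with g | ⟨k, c'⟩ | _ <;> rcases l with ⟨j, c, e⟩ | j <;> simp only [Inc] at hpl
  · by_cases hc : u j g = c
    · refine ⟨.tan j c, ⟨by simp [Inc], .cos j c (w j g), by simp [Inc, hc], by simp [Inc]⟩, ?_⟩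
      rintro q ⟨h1, m, h2, h3⟩
      rcases q with h | ⟨a, b⟩ | _ <;> rcases m with ⟨a', b', e'⟩ | a' <;>
        simp only [Inc] at h1 h2 h3
      · exfalso
        by_cases ha : a' = j
        · grind
        · have := F1 ha (h2.1.trans h3.1.symm) (h2.2.trans h3.2.symm) (hc.trans h1.1.symm)
          grind
      · grind
    · obtain ⟨k, h, hk, a1, a2, a3, a4⟩ := F3 j g c e hc
      refine ⟨.aff h, ⟨⟨a1, a2⟩, .cos k (u k g) (w k g), by simp [Inc], ⟨a3.symm, a4.symm⟩⟩, ?_⟩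
      rintro q ⟨h1, m, h2, h3⟩
      rcases q with h' | ⟨a, b⟩ | _ <;> rcases m with ⟨a', b', e'⟩ | a' <;>
        simp only [Inc] at h1 h2 h3
      · congr 1
        by_cases ha : a' = k
        · subst ha
          exact F1 hk.symm (h1.1.trans a1.symm) (h1.2.trans a2.symm)
            (h3.1.trans (h2.1.symm.trans a3))
        · have hj : a' ≠ j := by grind
          exact (F4 hk.symm hj ha (a1.trans h1.1.symm) (a2.trans h1.2.symm) a3 a4
            (h2.1.trans h3.1.symm) (h2.2.trans h3.2.symm)).symm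
      · grind
  · refine ⟨.tan j (u j g), ⟨by simp [Inc], .cos j (u j g) (w j g), by simp [Inc],
      by simp [Inc]⟩, ?_⟩
    rintro q ⟨h1, m, h2, h3⟩
    rcases q with h | ⟨a, b⟩ | _ <;> rcases m with ⟨a', b', e'⟩ | a' <;>
      simp only [Inc] at h1 h2 h3
    grind
  · by_cases hk : k = j
    · refine ⟨.tan j c, ⟨by simp [Inc], .sym j, by simp [Inc, hk], by simp [Inc]⟩, ?_⟩
      rintro q ⟨h1, m, h2, h3⟩
      rcases q with h | ⟨a, b⟩ | _ <;> rcases m with ⟨a', b', e'⟩ | a' <;>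
        simp only [Inc] at h1 h2 h3 <;> grind
    · obtain ⟨h, a1, a2, a3⟩ := F2 (Ne.symm hk) c c' e
      refine ⟨.aff h, ⟨⟨a1, a2⟩, .cos k c' (w k h), by simp [Inc], ⟨a3, rfl⟩⟩, ?_⟩
      rintro q ⟨h1, m, h2, h3⟩
      rcases q with h' | ⟨a, b⟩ | _ <;> rcases m with ⟨a', b', e'⟩ | a' <;>
        simp only [Inc] at h1 h2 h3
      · congr 1
        obtain ⟨rfl, rfl⟩ := h2
        exact F1 (Ne.symm hk) (h1.1.trans a1.symm) (h1.2.trans a2.symm) (h3.1.trans a3.symm)
      all_goals grind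
  · refine ⟨.inf, ⟨by simp [Inc], .sym k, by simp [Inc], by simp [Inc]⟩, ?_⟩
    rintro q ⟨h1, m, h2, h3⟩
    rcases q with h | ⟨a, b⟩ | _ <;> rcases m with ⟨a', b', e'⟩ | a' <;>
      simp only [Inc] at h1 h2 h3 <;> grind
  · refine ⟨.tan j c, ⟨by simp [Inc], .sym j, by simp [Inc], by simp [Inc]⟩, ?_⟩
    rintro q ⟨h1, m, h2, h3⟩
    rcases q with h | ⟨a, b⟩ | _ <;> rcases m with ⟨a', b', e'⟩ | a' <;>
      simp only [Inc] at h1 h2 h3
    grind
  · exact absurd trivial hpl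

theorem aut (g : GG) (p : Pt) (l : Ln) : Inc (g +ᵥ p) (g +ᵥ l) ↔ Inc p l := by
  rw [vP_eq, vL_eq]
  rcases p with h | ⟨k, c'⟩ | _ <;> rcases l with ⟨j, c, e⟩ | j <;>
    simp [vP, vL, Inc, u_add, w_add]
  rintro rfl
  simp

theorem notcol (p : Pt) : (¬ ∃ l, Inc p l ∧ Inc .inf l) ↔ ∃ g, p = .aff g := by
  rcases p with h | ⟨k, c'⟩ | _
  · simp only [Pt.aff.injEq, exists_eq', iff_true]
    rintro ⟨l, h1, h2⟩
    cases l <;> simp [Inc] at h1 h2
  · simp only [reduceCtorEq, exists_false, iff_false, not_not]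
    exact ⟨.sym k, by simp [Inc], by simp [Inc]⟩
  · simp only [reduceCtorEq, exists_false, iff_false, not_not]
    exact ⟨.sym ⟨_, O_spec.1⟩, by simp [Inc], by simp [Inc]⟩

/-- multiplication by X -/
noncomputable def mulX : GG →+ GG where
  toFun g := (X * g.1, X * g.2.1, φ X * g.2.2)
  map_zero' := by simp
  map_add' g h := by simp [mul_add]

theorem u_mulX (j : J) (g : GG) : u j (mulX g) = X * u j g := by simp [u, mulX]; ring
theorem w_mulX (j : J) (g : GG) : w j (mulX g) = φ X * w j g := by simp [w, mulX]; ring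

theorem mulX_P (g : GG) (j : J) (c : R) (h : g +ᵥ Pt.tan j c = Pt.tan j c) :
    mulX g +ᵥ Pt.tan j c = Pt.tan j c := by
  simp only [vP_eq, vP, Pt.tan.injEq, true_and, add_eq_right] at h ⊢
  rw [u_mulX, h, mul_zero]

theorem mulX_L (g : GG) (l : Ln) (h : g +ᵥ l = l) : mulX g +ᵥ l = l := by
  rcases l with ⟨j, c, e⟩ | j
  · simp only [vL_eq, vL, Ln.cos.injEq, true_and, add_eq_right] at h ⊢
    rw [u_mulX, w_mulX, h.1, h.2, mul_zero, mul_zero]
    exact ⟨rfl, rfl⟩
  · rfl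

theorem mulX_ne (g : GG) : mulX g ≠ (1, 0, 0) := by
  intro h
  have h1 : X * g.1 = 1 := congrArg Prod.fst h
  have := congrArg (eval 0) h1
  simp at this

end Pool.Agent.H.TGQ
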